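import Pool.Agent.H41.HYP.S4

/-!
# HYP, module CTA: the possible `μ`
-/

set_option autoImplicit false

namespace Pool.HYP

open Polynomial Matrix Pool.AVS

theorem degLe_neg {F : Type} [Field F] {p : F[X]} {m : ℤ} (h : DegLe p m) (hm : m < 0) :
    p = 0 := by
  by_contra h0
  have h1 := h h0
  have h2 : (0 : ℤ) ≤ (p.natDegree : ℤ) := Int.natCast_nonneg _
  omega

theorem dd_lo {g : ℕ} (μ : Fin g → ℕ) (i : Fin (2 * g + 1)) (h : (i : ℕ) < g) :
    dd μ i = -(μ ⟨i, h⟩ : ℤ) := by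
  unfold dd
  rw [dif_pos h]

theorem dd_le {g : ℕ} {μ : Fin g → ℕ} (hμ : Antitone μ) (j : Fin g) (b : Fin (2 * g + 1))
    (hb : (b : ℕ) + (j : ℕ) ≤ 2 * g) : dd μ b ≤ (μ j : ℤ) := by
  unfold dd
  split_ifs with h1 h2
  · have h3 : (0 : ℤ) ≤ (μ ⟨b, h1⟩ : ℤ) := Int.natCast_nonneg _
    have h4 : (0 : ℤ) ≤ (μ j : ℤ) := Int.natCast_nonneg _
    omega
  · have h3 : j ≤ (⟨2 * g - (b : ℕ), h2⟩ : Fin g) := by
      show (j : ℕ) ≤ 2 * g - (b : ℕ)
      omega
    exact_mod_cast hμ h3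
  · exact Int.natCast_nonneg _

theorem pen_map {F : Type} [Field F] {n : ℕ} (G S : Matrix (Fin n) (Fin n) F[X]) :
    (pen (mK G) (mK S)).det = (pen G S).det.map (algebraMap F[X] (RatFunc F)) := by
  have h1 : pen (mK G) (mK S) =
      (Polynomial.mapRingHom (algebraMap F[X] (RatFunc F))).mapMatrix (pen G S) := by
    ext i j : 2
    simp only [pen, Matrix.of_apply, RingHom.mapMatrix_apply, Matrix.map_apply,
      Polynomial.coe_mapRingHom, Polynomial.map_sub, Polynomial.map_mul, Polynomial.map_X,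
      Polynomial.map_C]
  rw [h1, ← RingHom.map_det, Polynomial.coe_mapRingHom]

/-- CTA: the possible `μ`. -/
theorem cta (hinv : INVStmt) (hirr : IRRStmt) : CTAStmt := by
  intro F _ g D h μ hg hD hμ hne
  obtain ⟨f, hf, G, S, hG, hS, hGd, hSd, hu, hpen, -, hnz⟩ := hne
  refine ⟨fun i hi => ?_, fun i j hij => ?_⟩
  · by_contra hlt
    refine hnz fun a b ha hb => ?_
    have h1 : μ i ≤ μ ⟨a, ha⟩ := hμ (show (⟨a, ha⟩ : Fin g) ≤ i from by
      show (a : ℕ) ≤ (i : ℕ)
      omega)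
    have h2 : μ i ≤ μ ⟨b, hb⟩ := hμ (show (⟨b, hb⟩ : Fin g) ≤ i from by
      show (b : ℕ) ≤ (i : ℕ)
      omega)
    have h3 := hGd a b
    have h4 := hSd a b
    rw [dd_lo μ a ha, dd_lo μ b hb] at h3 h4
    exact ⟨degLe_neg h3 (by omega), degLe_neg h4 (by omega)⟩
  · by_contra hlt
    have hj : (j : ℕ) < g := j.2
    have hzero : ∀ a b : Fin (2 * g + 1), (a : ℕ) < (i : ℕ) + 1 →
        (b : ℕ) < 2 * g + 1 - ((i : ℕ) + 1) → mK G a b = 0 ∧ mK S a b = 0 := by
      intro a b ha hb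
      have ha' : (a : ℕ) < g := by omega
      have h1 : μ i ≤ μ ⟨a, ha'⟩ := hμ (show (⟨a, ha'⟩ : Fin g) ≤ i from by
        show (a : ℕ) ≤ (i : ℕ)
        omega)
      have h2 := dd_le hμ j b (by omega)
      have h3 := hGd a b
      have h4 := hSd a b
      rw [dd_lo μ a ha'] at h3 h4
      have h5 : G a b = 0 := degLe_neg h3 (by omega)
      have h6 : S a b = 0 := degLe_neg h4 (by omega)
      refine ⟨?_, ?_⟩
      · show algebraMap F[X] (RatFunc F) (G a b) = 0
        rw [h5, map_zero]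
      · show algebraMap F[X] (RatFunc F) (S a b) = 0
        rw [h6, map_zero]
    have hdet : (mK G).det = algebraMap F[X] (RatFunc F) G.det :=
      (RingHom.map_det (algebraMap F[X] (RatFunc F)) G).symm
    have hdet0 : (mK G).det ≠ 0 := by
      rw [hdet]
      exact (hu.map (algebraMap F[X] (RatFunc F))).ne_zero
    refine hinv (RatFunc F) (2 * g + 1) ((i : ℕ) + 1) (mK G) (mK S) (by omega) (by omega) hdet0
      hzero ?_
    have hirr' := hirr F g D h hD.2.1 hD.2.2.1 hD.2.2.2 f hf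
    rw [pen_map, hpen, Polynomial.map_mul, Polynomial.map_C]
    have hunit : IsUnit (C (algebraMap F[X] (RatFunc F) G.det)) :=
      (hu.map (algebraMap F[X] (RatFunc F))).map C
    exact (irreducible_isUnit_mul hunit).2 hirr'

end Pool.HYP
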