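import Pool.Agent.H41.HYP.S3
import Pool.Agent.H20.HYP.ISO5
import Pool.Agent.H6.HYP.SPC

/-!
# HYP, module RED: reduction of a quadratic form over `F(t)` to a ternary form
-/

set_option autoImplicit false

namespace Pool.HYP

open Polynomial Matrix Pool.AVS

theorem blk2_map {K L : Type} [Field K] [Field L] (ι : K →+* L) {m : ℕ}
    {G : Matrix (Fin (m + 2)) (Fin (m + 2)) K} {G' : Matrix (Fin m) (Fin m) K}
    (h : Blk2 G G') : Blk2 (G.map ι) (G'.map ι) := by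
  obtain ⟨h00, h01, h10, h11, h3, h4⟩ := h
  refine ⟨?_, ?_, ?_, ?_, fun j => ⟨?_, ?_, ?_, ?_⟩, fun i j => ?_⟩
  · rw [Matrix.map_apply, h00, map_zero]
  · rw [Matrix.map_apply, h01, map_one]
  · rw [Matrix.map_apply, h10, map_one]
  · rw [Matrix.map_apply, h11, map_zero]
  · rw [Matrix.map_apply, (h3 j).1, map_zero]
  · rw [Matrix.map_apply, (h3 j).2.1, map_zero]
  · rw [Matrix.map_apply, (h3 j).2.2.1, map_zero]
  · rw [Matrix.map_apply, (h3 j).2.2.2, map_zero]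
  · rw [Matrix.map_apply, Matrix.map_apply, h4]

theorem red_step {F : Type} [Field F] [Finite F] (h1 : HY1Stmt) (h2 : WITStmt)
    (h2F : (2 : F) ≠ 0) (g : ℕ)
    (G : Matrix (Fin (2 * g + 3 + 2)) (Fin (2 * g + 3 + 2)) (RatFunc F)) (ε : RatFunc F)
    (hG : Gᵀ = G) (hε : ε ≠ 0) (hdet : G.det = (-1) ^ (g + 2) * ε ^ 2) :
    ∃ (G' : Matrix (Fin (2 * g + 3)) (Fin (2 * g + 3)) (RatFunc F)) (ε' : RatFunc F),
      G'ᵀ = G' ∧ ε' ≠ 0 ∧ G'.det = (-1) ^ (g + 1) * ε' ^ 2 ∧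
      ∀ (L : Type) [Field L] (ι : RatFunc F →+* L),
        (SplM (g + 2) (G.map ι) ↔ SplM (g + 1) (G'.map ι)) := by
  have h2K : (2 : RatFunc F) ≠ 0 := by
    have h3 : (2 : RatFunc F) = algebraMap F (RatFunc F) 2 := by rw [map_ofNat]
    rw [h3]
    exact (map_ne_zero_iff _ (algebraMap F (RatFunc F)).injective).2 h2F
  have hG0 : G.det ≠ 0 := by
    rw [hdet]
    exact mul_ne_zero (pow_ne_zero _ (neg_ne_zero.2 one_ne_zero)) (pow_ne_zero _ hε)
  obtain ⟨v, hv0, hv⟩ := iso5 F h2F (2 * g + 3 + 2) (by omega) G hG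
  obtain ⟨a, G', ha, hB, hG', hd⟩ := h1 (RatFunc F) h2K (2 * g + 3) G hG hG0 ⟨v, hv0, hv⟩
  refine ⟨G', a.det * ε, hG', mul_ne_zero ha hε, ?_, fun L _ ι => ?_⟩
  · rw [hd, Matrix.det_mul, Matrix.det_mul, Matrix.det_transpose, hdet]
    ring
  · have ha' : (a.map ι).det ≠ 0 := by
      have h5 : (a.map ι).det = ι a.det := (RingHom.map_det ι a).symm
      rw [h5]
      exact (map_ne_zero_iff _ ι.injective).2 ha
    have h6 := (spc L (g + 2) (2 * g + 3 + 2) (G.map ι) (a.map ι) 1 ha' one_ne_zero).1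
    have h7 : (a.map ι)ᵀ * G.map ι * a.map ι = (aᵀ * G * a).map ι := by
      rw [Matrix.map_mul, Matrix.map_mul, Matrix.transpose_map]
    rw [h7] at h6
    rw [← h6]
    exact h2 L (2 * g + 3) (g + 1) _ _ (blk2_map ι hB)

/-- RED: reduction to ternary forms. -/
theorem red (h1 : HY1Stmt) (h2 : WITStmt) : REDStmt := by
  intro F _ _ h2F g
  induction g with
  | zero =>
    intro G ε hG hε hdet
    refine ⟨G, ε, hG, hε, ?_, fun L _ ι => Iff.rfl⟩
    rw [hdet]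
    ring
  | succ g ih =>
    intro G ε hG hε hdet
    obtain ⟨G', ε', hG', hε', hd', hL⟩ := red_step h1 h2 h2F g G ε hG hε hdet
    obtain ⟨G₃, η, h3, h4, h5, h6⟩ := ih G' ε' hG' hε' hd'
    exact ⟨G₃, η, h3, h4, h5, fun L _ ι => (hL L ι).trans (h6 L ι)⟩

end Pool.HYP
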