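import Pool.Agent.H41.HYP.S6

/-!
# HYP, row TWJ: scaling of the roots by a nonzero element is injective
-/

set_option autoImplicit false

namespace Pool.HYP

open Polynomial

/-- Scaling of the roots by a nonzero element of a domain is injective. -/
theorem scaleRoots_inj {R : Type*} [CommRing R] [IsDomain R] {d : R} (hd : d ≠ 0) :
    Function.Injective fun f : R[X] => f.scaleRoots d := by
  intro f g h
  have h' : f.scaleRoots d = g.scaleRoots d := h
  have hdeg : f.natDegree = g.natDegree := by
    have := congrArg natDegree h'
    simpa [natDegree_scaleRoots] using this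
  ext k
  have hk := congrArg (fun p => coeff p k) h'
  simp only [coeff_scaleRoots] at hk
  rw [hdeg] at hk
  exact mul_right_cancel₀ (pow_ne_zero _ hd) hk

theorem twj : TWJStmt := by
  intro F _ d hd
  exact scaleRoots_inj hd

end Pool.HYP
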